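import Pool.Agent.H10R3.SC.Stmts3

set_option autoImplicit false

/-! CX12: types from the trees whose edges 0, 2, 3 belong to the new circuit. -/

open Finset

namespace Pool.Agent.H568R3.SC

open Pool.Agent.Helper347.Sab
open Pool.Agent.H444.FA
open Pool.Agent.H10R3.SC

theorem cnt5 (P : Fin 5 → Prop) [DecidablePred P] :
    (univ.filter P).card = (if P 0 then 1 else 0) + (if P 1 then 1 else 0) +
      (if P 2 then 1 else 0) + (if P 3 then 1 else 0) + (if P 4 then 1 else 0) := by
  rw [card_filter, Fin.sum_univ_five]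

theorem comb (n : ℕ) (p : Fin 5 → Finset (Fin n))
    (hc : ∀ k, (p k).card = if k ∈ ({0, 2, 3} : Finset (Fin 5)) then 1 else 2)
    (h0 : ∀ c, c ∈ p 1 ↔ ¬ (c ∈ p 0 ↔ c ∈ p 2)) (h1 : ∀ c, c ∈ p 4 ↔ ¬ (c ∈ p 2 ↔ c ∈ p 3)) :
    ∃ a b e, a ≠ e ∧ b ≠ e ∧ p 0 = {a} ∧ p 1 = {a, e} ∧ p 3 = {b} ∧ p 4 = {b, e} := by
  have c0 := hc 0
  have c1 := hc 1
  have c2 := hc 2
  have c3 := hc 3
  have c4 := hc 4
  rw [if_pos (by decide)] at c0 c2 c3
  rw [if_neg (by decide)] at c1 c4
  obtain ⟨a, ha⟩ := card_eq_one.1 c0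
  obtain ⟨e, he⟩ := card_eq_one.1 c2
  obtain ⟨b, hb⟩ := card_eq_one.1 c3
  have hae : a ≠ e := by
    rintro rfl
    have : p 1 = ∅ := by
      ext c
      rw [h0 c, ha, he]
      simp
    rw [this] at c1
    simp at c1
  have hbe : b ≠ e := by
    rintro rfl
    have : p 4 = ∅ := by
      ext c
      rw [h1 c, he, hb]
      simp
    rw [this] at c4
    simp at c4
  refine ⟨a, b, e, hae, hbe, ha, ?_, hb, ?_⟩
  · ext c
    rw [h0 c, ha, he]
    simp only [mem_singleton, mem_insert]
    constructor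
    · intro h
      by_cases h1 : c = a
      · exact Or.inl h1
      · by_cases h2 : c = e
        · exact Or.inr h2
        · exact absurd (iff_of_false h1 h2) h
    · rintro (h | h) h'
      · exact hae (h.symm.trans (h'.1 h))
      · exact hae ((h'.2 h).symm.trans h)
  · ext c
    rw [h1 c, he, hb]
    simp only [mem_singleton, mem_insert]
    constructor
    · intro h
      by_cases h1 : c = b
      · exact Or.inl h1
      · by_cases h2 : c = e
        · exact Or.inr h2
        · exact absurd (iff_of_false h2 h1) h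
    · rintro (h | h) h'
      · exact hbe (h.symm.trans (h'.2 h))
      · exact hbe ((h'.1 h).symm.trans h)

section
variable {V E : Type} [Fintype V] [DecidableEq V] [Fintype E] [DecidableEq E]

theorem get (h1 : TRead) (G : MGraph V E) (C : Finset E) (X : Finset V) (y x : Fin 4 → V)
    (ℓ : Fin 4 → E) (hcr : Cr G X y x ℓ) (k l l' : Fin 4) (hg : Gdt y (gTree y k l l'))
    (hgd : ∀ j, ¬ (gTree y k l l' j).IsDiag)
    (hgood : Good (ext G (gTree y k l l') hgd) (inG (ins G univ X)) (newD G C X {0, 2, 3})) :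
    ∃ (n : ℕ) (Z : Fin n → Finset E) (a b e : Fin n), PC G (ins G univ X) (mS C) y Z ∧
      a ≠ e ∧ b ≠ e ∧ pat G y Z 0 = {a} ∧ pat G y Z k = {a, e} ∧ pat G y Z l = {b} ∧
      pat G y Z l' = {b, e} := by
  obtain ⟨n, Z, p, hPC, hcard, hpat, hev⟩ := h1 V E G C X 4 y x ℓ hcr 2 5 (gTree y k l l') hg hgd
    {0, 2, 3} hgood
  have hA : ∀ c, c ∈ p 1 ↔ ¬ (c ∈ p 0 ↔ c ∈ p 2) := by
    intro c
    have h := hev 0 c
    rw [cnt5] at h
    by_cases q0 : c ∈ p 0 <;> by_cases q1 : c ∈ p 1 <;> by_cases q2 : c ∈ p 2 <;>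
      simp [gTree, q0, q1, q2] at h ⊢ <;> revert h <;> decide
  have hB : ∀ c, c ∈ p 4 ↔ ¬ (c ∈ p 2 ↔ c ∈ p 3) := by
    intro c
    have h := hev 1 c
    rw [cnt5] at h
    by_cases q0 : c ∈ p 2 <;> by_cases q1 : c ∈ p 3 <;> by_cases q2 : c ∈ p 4 <;>
      simp [gTree, q0, q1, q2] at h ⊢ <;> revert h <;> decide
  obtain ⟨a, b, e, hae, hbe, e0, e1, e3, e4⟩ := comb n p hcard hA hB
  refine ⟨n, Z, a, b, e, hPC, hae, hbe, ?_, ?_, ?_, ?_⟩
  · rw [hpat 0 0 (by simp [gTree]), e0]
  · rw [hpat k 1 (by simp [gTree]), e1]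
  · rw [hpat l 3 (by simp [gTree]), e3]
  · rw [hpat l' 4 (by simp [gTree]), e4]

end

theorem tyB (h1 : TRead) (h2 : TPad) : TTyB := by
  intro V E _ _ _ _ G C X y x ℓ hcr
  constructor
  · intro hg hgd hgood
    obtain ⟨n, Z, a, b, e, hPC, hae, hbe, p0, p2, p1, p3⟩ :=
      get h1 G C X y x ℓ hcr 2 1 3 hg hgd hgood
    by_cases hab : a = b
    · left
      subst hab
      refine h2 V E G C X 4 y n Z hPC PS {0, 1} ![a, e, a] ?_ ?_ ?_
      · decide
      · intro s hs t ht hst
        fin_cases s <;> fin_cases t <;> simp_all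
      · intro i
        fin_cases i
        · change pat G y Z 0 = _; rw [p0]; simp [PS]
        · change pat G y Z 1 = _; rw [p1]; simp [PS]
        · change pat G y Z 2 = _; rw [p2]; simp [PS]
        · change pat G y Z 3 = _; rw [p3]; simp [PS]
    · right
      refine h2 V E G C X 4 y n Z hPC PQ univ ![a, b, e] ?_ ?_ ?_
      · decide
      · intro s hs t ht hst
        fin_cases s <;> fin_cases t <;> simp_all
      · intro i
        fin_cases i
        · change pat G y Z 0 = _; rw [p0]; simp [PQ]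
        · change pat G y Z 1 = _; rw [p1]; simp [PQ]
        · change pat G y Z 2 = _; rw [p2]; simp [PQ, image_insert]
        · change pat G y Z 3 = _; rw [p3]; simp [PQ, image_insert]
  · intro hg hgd hgood
    obtain ⟨n, Z, a, b, e, hPC, hae, hbe, p0, p3, p1, p2⟩ :=
      get h1 G C X y x ℓ hcr 3 1 2 hg hgd hgood
    by_cases hab : a = b
    · left
      subst hab
      refine h2 V E G C X 4 y n Z hPC PS {0, 1} ![a, e, a] ?_ ?_ ?_
      · decide
      · intro s hs t ht hst
        fin_cases s <;> fin_cases t <;> simp_all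
      · intro i
        fin_cases i
        · change pat G y Z 0 = _; rw [p0]; simp [PS]
        · change pat G y Z 1 = _; rw [p1]; simp [PS]
        · change pat G y Z 2 = _; rw [p2]; simp [PS]
        · change pat G y Z 3 = _; rw [p3]; simp [PS]
    · right
      refine h2 V E G C X 4 y n Z hPC PR univ ![a, b, e] ?_ ?_ ?_
      · decide
      · intro s hs t ht hst
        fin_cases s <;> fin_cases t <;> simp_all
      · intro i
        fin_cases i
        · change pat G y Z 0 = _; rw [p0]; simp [PR]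
        · change pat G y Z 1 = _; rw [p1]; simp [PR]
        · change pat G y Z 2 = _; rw [p2]; simp [PR, image_insert]
        · change pat G y Z 3 = _; rw [p3]; simp [PR, image_insert]

end Pool.Agent.H568R3.SC
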